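import Mathlib
import Pool.Agent.V1189.RT.PowWin

/-!
# Linear relations between the digits of `u p ^ n` in base `q`

Let `p, q ≥ 2` be coprime, for instance different primes, and let `u ≥ 1`. We consider `r` pairwise
disjoint windows of `l` consecutive digits each of the base `q` expansion of `u p ^ n`. The joint order
of these windows is the least `m` such that the `r` words satisfy a common nontrivial relation

  `a_0 s_i + a_1 s_(i+1) + … + a_m s_(i+m) = 0`   (`1 ≤ i ≤ l - m`),   `a_0, …, a_m ∈ ℚ` not all `0`.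

By counting equations, the joint order is at most `r l / (r + 1) + 1`, and for random digits it is not
much smaller. We prove that for all `r` and `ε > 0` there is a constant `C` such that the joint order is
at least `r l / (r + 1) - ε n - C (1 + log u)` for all `n`, `u` and all windows. For one window of `p ^ n`
it is `l / 2 + o(n)`.
-/

set_option autoImplicit false

namespace Pool.Agent.Results.MP_b08cb4_nt.WindowRelations

open Finset

/-- the digit of `x` in base `q` at the place of `q ^ h` -/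
def digit (q x h : ℕ) : ℕ := x / q ^ h % q

/-- `r` pairwise disjoint windows of `l` digits each of `x` in base `q` (which has
`Nat.log q x + 1` digits): the `k`-th window consists, from left to right, of the digits at the places
`W k - 1, …, W k - l`. -/
structure IsWindows (q x r : ℕ) (W : Fin r → ℕ) (l : ℕ) : Prop where
  inside : ∀ k, l ≤ W k ∧ W k ≤ Nat.log q x + 1
  disjoint : ∀ j k, j ≠ k → W j + l ≤ W k ∨ W k + l ≤ W j

/-- The `r` windows satisfy a common nontrivial linear relation of order `m`. -/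
def HasRelation (q x r : ℕ) (W : Fin r → ℕ) (l m : ℕ) : Prop :=
  ∃ a : ℕ → ℚ, (∃ j ≤ m, a j ≠ 0) ∧ ∀ k : Fin r, ∀ i : ℕ, 1 ≤ i → i + m ≤ l →
    ∑ j ∈ range (m + 1), a j * (digit q x (W k - (i + j)) : ℚ) = 0

/-- the joint order of the windows -/
noncomputable def jointOrder (q x r : ℕ) (W : Fin r → ℕ) (l : ℕ) : ℕ :=
  sInf {m | HasRelation q x r W l m}

lemma hasRelation_self (q x r : ℕ) (W : Fin r → ℕ) (l : ℕ) : HasRelation q x r W l l :=
  ⟨fun _ => 1, ⟨0, by omega, one_ne_zero⟩, fun k i h1 h2 => by omega⟩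

lemma jointOrder_mem (q x r : ℕ) (W : Fin r → ℕ) (l : ℕ) :
    HasRelation q x r W l (jointOrder q x r W l) :=
  Nat.sInf_mem (s := {m | HasRelation q x r W l m}) ⟨l, hasRelation_self q x r W l⟩

lemma jointOrder_le (q x r : ℕ) (W : Fin r → ℕ) (l : ℕ) : jointOrder q x r W l ≤ l :=
  Nat.sInf_le (hasRelation_self q x r W l)

/-- the upper bound, by counting equations -/
lemma upper (q x r : ℕ) (W : Fin r → ℕ) (l : ℕ) :
    (jointOrder q x r W l : ℝ) ≤ (r : ℝ) / (r + 1) * l + 1 := by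
  obtain ⟨m, hm⟩ : ∃ m : ℕ, m = (r * l + r) / (r + 1) := ⟨_, rfl⟩
  have hm1 : r * l ≤ (r + 1) * m := by
    have h1 := Nat.div_add_mod (r * l + r) (r + 1)
    have h2 := Nat.mod_lt (r * l + r) (show 0 < r + 1 by omega)
    rw [← hm] at h1
    omega
  have hm2 : (r + 1) * m ≤ r * l + r := by
    rw [hm]; exact Nat.mul_div_le _ _
  have hrel : HasRelation q x r W l m := by
    rcases Nat.lt_or_ge l m with hlm | hlm
    · exact ⟨fun _ => 1, ⟨0, by omega, one_ne_zero⟩, fun k i h1 h2 => by omega⟩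
    let f : (Fin (m + 1) → ℚ) →ₗ[ℚ] (Fin r × Fin (l - m) → ℚ) :=
      LinearMap.pi fun p => ∑ j : Fin (m + 1),
        (digit q x (W p.1 - (p.2 + 1 + j)) : ℚ) • LinearMap.proj j
    have hker : LinearMap.ker f ≠ ⊥ := by
      apply LinearMap.ker_ne_bot_of_finrank_lt
      rw [Module.finrank_fintype_fun_eq_card, Module.finrank_fintype_fun_eq_card, Fintype.card_prod,
        Fintype.card_fin, Fintype.card_fin, Fintype.card_fin]
      zify [hlm]
      zify at hm1
      nlinarith
    obtain ⟨a, ha, ha0⟩ := (Submodule.ne_bot_iff _).1 hker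
    obtain ⟨j0, hj0⟩ : ∃ j, a j ≠ 0 := by
      by_contra h
      push Not at h
      exact ha0 (funext h)
    obtain ⟨a', ha'⟩ : ∃ a' : ℕ → ℚ, ∀ j : Fin (m + 1), a' j = a j :=
      ⟨fun j => if h : j < m + 1 then a ⟨j, h⟩ else 0, fun j => dif_pos j.2⟩
    refine ⟨a', ⟨j0, by omega, by rw [ha']; exact hj0⟩, fun k i h1 h2 => ?_⟩
    have h3 := congrFun (LinearMap.mem_ker.1 ha) (k, (⟨i - 1, by omega⟩ : Fin (l - m)))
    have h4 : ∑ j : Fin (m + 1), a j * (digit q x (W k - (i + j)) : ℚ) = 0 := by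
      refine Eq.trans ?_ h3
      simp only [f, LinearMap.pi_apply, LinearMap.sum_apply, LinearMap.smul_apply,
        LinearMap.proj_apply, smul_eq_mul]
      refine Finset.sum_congr rfl fun j _ => ?_
      rw [mul_comm, show i - 1 + 1 + (j : ℕ) = i + j by omega]
    refine Eq.trans ?_ h4
    rw [Finset.sum_range]
    exact Finset.sum_congr rfl fun j _ => by rw [ha']
  have h1 : jointOrder q x r W l ≤ m := Nat.sInf_le hrel
  have h2 : (jointOrder q x r W l : ℝ) ≤ m := by exact_mod_cast h1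
  have h3 : ((r : ℝ) + 1) * m ≤ r * l + r := by exact_mod_cast hm2
  have hr : (0 : ℝ) < (r : ℝ) + 1 := by positivity
  refine h2.trans ?_
  rw [← mul_le_mul_iff_right₀ hr]
  have h4 : ((r : ℝ) + 1) * ((r : ℝ) / (r + 1) * l + 1) = r * l + (r + 1) := by
    field_simp
  rw [h4]
  linarith

/-- the lower bound -/
theorem lower (p q r : ℕ) (hp : 2 ≤ p) (hq : 2 ≤ q) (hpq : p.Coprime q) (hr : 1 ≤ r) (ε : ℝ)
    (hε : 0 < ε) : ∃ C : ℝ, 0 ≤ C ∧ ∀ n u : ℕ, 1 ≤ u → ∀ (W : Fin r → ℕ) (l : ℕ),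
      IsWindows q (u * p ^ n) r W l →
      (r : ℝ) / (r + 1) * l - ε * n - C * (1 + Real.log u) ≤ jointOrder q (u * p ^ n) r W l := by
  have hqR : (2 : ℝ) ≤ q := by exact_mod_cast hq
  have hpR : (2 : ℝ) ≤ p := by exact_mod_cast hp
  have hrR : (1 : ℝ) ≤ r := by exact_mod_cast hr
  obtain ⟨L, hL⟩ : ∃ L : ℝ, L = Real.log q := ⟨_, rfl⟩
  obtain ⟨G, hG⟩ : ∃ G : ℝ, G = Real.log p := ⟨_, rfl⟩
  have hL0 : 0 < L := by rw [hL]; exact Real.log_pos (by linarith)
  have hG0 : 0 < G := by rw [hG]; exact Real.log_pos (by linarith)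
  obtain ⟨C1, hC10, hC1⟩ := Pool.Agent.V1189.RT.powWindows r p q hr hp hq hpq (ε / 2) (by linarith)
  obtain ⟨κ, hκ⟩ : ∃ κ : ℝ, κ = ε / 2 / (1 + G / L) := ⟨_, rfl⟩
  have hGL : 0 < G / L := by positivity
  have hκ0 : 0 < κ := by rw [hκ]; positivity
  obtain ⟨K, hK0, hK⟩ := Pool.Agent.Results.MP_a49cf6_nt.DigitRecurrences.F_linear 17 κ
    (by norm_num) hκ0
  refine ⟨C1 + (κ + κ / L + K), by positivity, fun n u hu W l hW => ?_⟩
  obtain ⟨x, hx⟩ : ∃ x, x = u * p ^ n := ⟨_, rfl⟩
  have hx1 : 1 ≤ x := by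
    rw [hx]; exact Nat.mul_pos hu (by positivity)
  obtain ⟨m, hm⟩ : ∃ m, m = jointOrder q (u * p ^ n) r W l := ⟨_, rfl⟩
  obtain ⟨a, ⟨j1, hj1, haj1⟩, hrel⟩ := jointOrder_mem q (u * p ^ n) r W l
  have hml : m ≤ l := by rw [hm]; exact jointOrder_le _ _ _ _ _
  rw [← hm] at hj1 hrel ⊢
  -- the last nonzero coefficient
  obtain ⟨m', hm', hmax⟩ := Finset.exists_max_image ((range (m + 1)).filter fun j => a j ≠ 0) id
    ⟨j1, by rw [mem_filter, mem_range]; exact ⟨by omega, haj1⟩⟩
  rw [mem_filter, mem_range] at hm'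
  have hzero : ∀ j, m' < j → j < m + 1 → a j = 0 := by
    intro j h1 h2
    by_contra h3
    have := hmax j (by rw [mem_filter, mem_range]; exact ⟨h2, h3⟩)
    simp only [id] at this
    omega
  have hpow : ∀ k, q ^ W k ≤ q * (u * p ^ n) := by
    intro k
    have h1 := (hW.inside k).2
    have h2 : q ^ Nat.log q (u * p ^ n) ≤ u * p ^ n := Nat.pow_log_le_self q (by omega)
    calc q ^ W k ≤ q ^ (Nat.log q (u * p ^ n) + 1) := Nat.pow_le_pow_right (by omega) h1
      _ = q * q ^ Nat.log q (u * p ^ n) := by rw [pow_succ']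
      _ ≤ q * (u * p ^ n) := Nat.mul_le_mul_left q h2
  have hmain := hC1 n u hu W (l - (m - m')) m' (fun j => -a j / a m')
    (fun k => by have := (hW.inside k).1; omega) hpow
    (fun i j hij => by
      rcases hW.disjoint i j hij with h | h
      · left; omega
      · right; omega) (fun k i h1 h2 => by
      have h3 := hrel k i h1 (by omega)
      have h4 : ∑ j ∈ range (m + 1), a j * (digit q (u * p ^ n) (W k - (i + j)) : ℚ) =
          ∑ j ∈ range (m' + 1), a j * (digit q (u * p ^ n) (W k - (i + j)) : ℚ) := by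
        symm
        apply Finset.sum_subset
        · intro j hj
          rw [mem_range] at hj ⊢
          omega
        · intro j hj1 hj2
          rw [mem_range] at hj1 hj2
          rw [hzero j (by omega) hj1, zero_mul]
      rw [h4, Finset.sum_range_succ] at h3
      have h5 : ((digit q (u * p ^ n) (W k - (i + m')) : ℕ) : ℚ) = ∑ j ∈ range m',
          -a j / a m' * ((digit q (u * p ^ n) (W k - (i + j)) : ℕ) : ℚ) := by
        have h6 : ∑ j ∈ range m', -a j / a m' * ((digit q (u * p ^ n) (W k - (i + j)) : ℕ) : ℚ) =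
            -(∑ j ∈ range m', a j * (digit q (u * p ^ n) (W k - (i + j)) : ℚ)) / a m' := by
          rw [← Finset.sum_neg_distrib, Finset.sum_div]
          exact Finset.sum_congr rfl fun j _ => by ring
        rw [h6, eq_div_iff hm'.2]
        linarith
      exact_mod_cast h5)
  -- the conclusion
  have h2 := hK m'
  have h3 : (m' : ℝ) + 15 * Pool.Agent.W47.JL.err m' ≤
      Pool.Agent.Results.MP_a49cf6_nt.DigitRecurrences.F 17 m' := by
    have h4 := Pool.Agent.W47.JL.err_ge m'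
    have h5 : Pool.Agent.Results.MP_a49cf6_nt.DigitRecurrences.F 17 m' =
      m' + 17 * Pool.Agent.W47.JL.err m' := rfl
    rw [h5]; linarith
  have h4 : (m' : ℝ) + 15 * Pool.Agent.W47.JL.err m' ≤ m' + κ * m' + K := by linarith
  have hm'm : (m' : ℝ) ≤ m := by exact_mod_cast (by omega : m' ≤ m)
  have hmlR : (m : ℝ) ≤ l := by exact_mod_cast hml
  have hm0 : (0 : ℝ) ≤ m' := Nat.cast_nonneg _
  have huR : (1 : ℝ) ≤ u := by exact_mod_cast hu
  have hlu : 0 ≤ Real.log u := Real.log_nonneg huR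
  have hcast : ((l - (m - m') : ℕ) : ℝ) = l - m + m' := by
    rw [Nat.cast_sub (by omega), Nat.cast_sub (by omega)]
    ring
  rw [hcast] at hmain
  have hl : (l : ℝ) * L ≤ L + Real.log u + n * G := by
    have h5 : ((q : ℝ)) ^ W ⟨0, hr⟩ ≤ q * (u * (p : ℝ) ^ n) := by exact_mod_cast hpow ⟨0, hr⟩
    have h6 := Real.log_le_log (by positivity) h5
    rw [Real.log_pow, Real.log_mul (by positivity) (by positivity),
      Real.log_mul (by positivity) (by positivity), Real.log_pow, ← hL, ← hG] at h6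
    have h7 : (l : ℝ) ≤ W ⟨0, hr⟩ := by exact_mod_cast (hW.inside ⟨0, hr⟩).1
    have h8 := mul_le_mul_of_nonneg_right h7 hL0.le
    linarith
  have hκl : κ * (l : ℝ) ≤ ε / 2 * n + (κ + κ / L * Real.log u) := by
    have h5 : κ * (l : ℝ) = κ / L * (l * L) := by field_simp
    have h6 := mul_le_mul_of_nonneg_left hl (by positivity : 0 ≤ κ / L)
    have h7 : κ / L * (L + Real.log u + n * G) = κ * (G / L) * n + (κ + κ / L * Real.log u) := by
      field_simp
      ring
    have h8 : κ * (G / L) ≤ ε / 2 := by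
      rw [hκ, div_mul_eq_mul_div, div_le_iff₀ (by positivity)]
      nlinarith
    have h9 : κ * (G / L) * n ≤ ε / 2 * n := mul_le_mul_of_nonneg_right h8 (Nat.cast_nonneg n)
    linarith
  have hr1 : (0 : ℝ) < (r : ℝ) + 1 := by positivity
  have h5 : κ * (m' : ℝ) ≤ κ * l := mul_le_mul_of_nonneg_left (hm'm.trans hmlR) hκ0.le
  have h6 : ((r : ℝ) + 1) * (m' + 15 * Pool.Agent.W47.JL.err m') ≤
      (r + 1) * (m' + (ε / 2 * n + (κ + κ / L * Real.log u)) + K) :=
    mul_le_mul_of_nonneg_left (by linarith) hr1.le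
  rw [← mul_le_mul_iff_right₀ hr1]
  have h7 : ((r : ℝ) + 1) * ((r : ℝ) / (r + 1) * l - ε * n -
      (C1 + (κ + κ / L + K)) * (1 + Real.log u)) = r * l - (r + 1) * (ε * n) -
      (r + 1) * ((C1 + (κ + κ / L + K)) * (1 + Real.log u)) := by
    rw [mul_sub, mul_sub, ← mul_assoc]
    congr 3
    field_simp
  rw [h7]
  have h8 : (0 : ℝ) ≤ ε * n := by positivity
  have h9 : (r : ℝ) * (ε * n) ≥ ε * n := by nlinarith
  have h10 : 0 ≤ C1 * (1 + Real.log u) := by positivity
  have h11 : 0 ≤ r * (C1 * (1 + Real.log u)) := by positivity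
  have h12 : 0 ≤ (κ + K) * Real.log u := by positivity
  have h13 : 0 ≤ κ / L := by positivity
  have h14 : κ + κ / L * Real.log u + K ≤ (κ + κ / L + K) * (1 + Real.log u) := by
    have h15 : (κ + κ / L + K) * (1 + Real.log u) =
      (κ + κ / L * Real.log u + K) + (κ / L + (κ + K) * Real.log u) := by ring
    rw [h15]; linarith
  have h15 := mul_le_mul_of_nonneg_left h14 hr1.le
  have h16 : (r : ℝ) * (m - m') + (r + 1) * m' ≤ (r + 1) * m := by nlinarith
  have h17 : (r : ℝ) * (l - m + m') ≤ (r + 1) * (m' + (ε / 2 * n + (κ + κ / L * Real.log u)) + K) +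
      ε / 2 * n + C1 * (1 + Real.log u) := by linarith
  nlinarith

/-- **Linear relations between the digits of `u p ^ n`.** See the text at the beginning of the
file. -/
theorem result (p q : ℕ) (hp : 2 ≤ p) (hq : 2 ≤ q) (hpq : p.Coprime q) (r : ℕ) (hr : 1 ≤ r)
    (ε : ℝ) (hε : 0 < ε) :
    ∃ C : ℝ, ∀ n u : ℕ, 1 ≤ u → ∀ (W : Fin r → ℕ) (l : ℕ), IsWindows q (u * p ^ n) r W l →
      (r : ℝ) / (r + 1) * l - ε * n - C * (1 + Real.log u) ≤ jointOrder q (u * p ^ n) r W l ∧
      (jointOrder q (u * p ^ n) r W l : ℝ) ≤ (r : ℝ) / (r + 1) * l + 1 := by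
  obtain ⟨C, -, hC⟩ := lower p q r hp hq hpq hr ε hε
  exact ⟨C, fun n u hu W l hW => ⟨hC n u hu W l hW, upper q (u * p ^ n) r W l⟩⟩

end Pool.Agent.Results.MP_b08cb4_nt.WindowRelations
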