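import Mathlib
import Pool.Agent.V1110.MlF

set_option autoImplicit false

/-!
# Words in almost all of any boundedly many consecutive multiples of `p ^ n`

Let `p, q ≥ 2` be coprime (for instance different primes), `k ≥ 1` and `δ > 0`.  We consider the
numbers `m p ^ n + y`, `m < R`, for a bounded number `R ≥ R₀` of multipliers, `R₀` independent of `n`
(for `y = M p ^ n` these are `R` consecutive multiples of `p ^ n`).

(1) There is `R₀` such that for every `K` and all large `n`, for all but at most `δ R` of the `m < R`,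
every word of `k` digits stands at least `K` times in the base `q` expansion of `m p ^ n + y`, at the
places below the number of digits of `p ^ n`.
(2) For every `ε > 0` there is `R₀` such that for all large `n`, for all but at most `δ R` of the
`m < R`, every word of `k` digits stands in every window of at least `ε n` of these places.

The exceptional sets of multipliers have density at most `δ` already among boundedly many consecutive
multipliers, and the results hold for every large `n`.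
-/

namespace Pool.Agent.Results.MP_b08cb4_nt.BoundedMultiples

open Finset

/-- the digit of `x` in base `q` at the place of `q ^ h` -/
def digit (q x h : ℕ) : ℕ := x / q ^ h % q

/-- the word `w` (with the digit `w j` of weight `q ^ j`) stands in `x` at the places
`i, …, i + k - 1` -/
def Stands (q : ℕ) {k : ℕ} (w : Fin k → Fin q) (x i : ℕ) : Prop :=
  ∀ j : Fin k, digit q x (i + j) = (w j : ℕ)

/-- the number of the base `q` digits of `x ≥ 1` -/
def len (q x : ℕ) : ℕ := Nat.log q x + 1

theorem stands_of {q k : ℕ} (w : Fin k → Fin q) (x i : ℕ)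
    (h : x / q ^ i % q ^ k = ((finFunctionFinEquiv w : Fin (q ^ k)) : ℕ)) : Stands q w x i := by
  intro j
  have hj : (j : ℕ) < k := j.2
  unfold digit
  have e1 : (finFunctionFinEquiv.symm (finFunctionFinEquiv w : Fin (q ^ k)) : Fin k → Fin q) j =
      w j := by rw [Equiv.symm_apply_apply]
  have e2 : ((finFunctionFinEquiv w : Fin (q ^ k)) : ℕ) / q ^ (j : ℕ) % q = (w j : ℕ) := by
    have h1 := congrArg Fin.val e1
    rw [← h1]
    rfl
  rw [← e2, ← h, pow_add, ← Nat.div_div_eq_div_mul]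
  have e3 : q ^ k = q ^ (j : ℕ) * q ^ (k - j) := by
    rw [← pow_add]
    congr 1
    omega
  rw [e3, Nat.mod_mul_right_div_self, Nat.mod_mod_of_dvd]
  exact dvd_pow_self q (by omega)

/-- **Words in almost all of any boundedly many consecutive multiples of `p ^ n`.** -/
theorem result (p q k : ℕ) (hp : 2 ≤ p) (hq : 2 ≤ q) (hpq : p.Coprime q) (hk : 1 ≤ k) (δ : ℝ)
    (hδ : 0 < δ) :
    (∃ R₀ : ℕ, ∀ K : ℕ, ∃ n₀ : ℕ, ∀ n : ℕ, n₀ ≤ n → ∀ R : ℕ, R₀ ≤ R → ∀ y : ℕ,
      (Nat.card {m : Fin R // ∃ w : Fin k → Fin q,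
        Set.ncard {i : ℕ | i + k ≤ len q (p ^ n) ∧ Stands q w (m * p ^ n + y) i} < K} : ℝ) ≤
          δ * R) ∧
    (∀ ε : ℝ, 0 < ε → ∃ R₀ n₀ : ℕ, ∀ n : ℕ, n₀ ≤ n → ∀ R : ℕ, R₀ ≤ R → ∀ y : ℕ,
      (Nat.card {m : Fin R // ¬ ∀ u l : ℕ, u + l ≤ len q (p ^ n) → ε * n ≤ l →
        ∀ w : Fin k → Fin q, ∃ i : ℕ, u ≤ i ∧ i + k ≤ u + l ∧
          Stands q w (m * p ^ n + y) i} : ℝ) ≤ δ * R) := by
  classical
  constructor
  · obtain ⟨R₀, h⟩ := Pool.Agent.V1110.Ml.partA hp hq hpq hk hδ
    refine ⟨R₀, fun K => ?_⟩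
    obtain ⟨n₀, hn₀⟩ := h K
    refine ⟨n₀, fun n hn R hR y => le_trans ?_ (hn₀ n hn R hR y)⟩
    rw [Nat.card_eq_fintype_card, Fintype.card_subtype]
    refine Nat.cast_le.2 (card_le_card_of_injOn (fun m : Fin R => (m : ℕ)) ?_
      (Fin.val_injective.injOn))
    intro m hm
    rw [mem_coe, mem_filter] at hm
    obtain ⟨w, hw⟩ := hm.2
    rw [mem_coe, mem_filter, mem_range]
    refine ⟨m.2, ((finFunctionFinEquiv w : Fin (q ^ k)) : ℕ), (finFunctionFinEquiv w).2,
      lt_of_le_of_lt ?_ hw⟩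
    rw [← Set.ncard_coe_finset]
    refine Set.ncard_le_ncard ?_ ((Set.finite_Iic (len q (p ^ n))).subset ?_)
    · intro i hi
      rw [mem_coe, mem_filter] at hi
      exact ⟨hi.2.1, stands_of w _ i hi.2.2⟩
    · rintro i ⟨hi, -⟩
      rw [Set.mem_Iic]
      omega
  · intro ε hε
    obtain ⟨R₀, n₀, h⟩ := Pool.Agent.V1110.Ml.partB hp hq hpq hk hε hδ
    refine ⟨R₀, n₀, fun n hn R hR y => le_trans ?_ (h n hn R hR y)⟩
    rw [Nat.card_eq_fintype_card, Fintype.card_subtype]
    refine Nat.cast_le.2 (card_le_card_of_injOn (fun m : Fin R => (m : ℕ)) ?_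
      (Fin.val_injective.injOn))
    intro m hm
    rw [mem_coe, mem_filter] at hm
    have hm2 := hm.2
    push Not at hm2
    obtain ⟨u, l, h1, h2, w, h3⟩ := hm2
    rw [mem_coe, mem_filter, mem_range]
    refine ⟨m.2, u, l, h1, h2, ((finFunctionFinEquiv w : Fin (q ^ k)) : ℕ),
      (finFunctionFinEquiv w).2, fun i hi1 hi2 he => h3 i hi1 hi2 (stands_of w _ i he)⟩

end Pool.Agent.Results.MP_b08cb4_nt.BoundedMultiples
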