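import Pool.Agent.V11226.SM.QPow

set_option autoImplicit false

/-!
# Multiples `m p ^ n` with multipliers `m` whose digits are restricted

Let `p, q ≥ 2` be coprime, for instance different primes.  For digit sets
`D 0, D 1, … ⊆ {0, …, q - 1}` with at least two elements each let `digs q D N` be the set of the
`m < q ^ N` whose digit number `i` in base `q` belongs to `D i` for all `i < N` (for example, all the
digits of `m` are `0` or `1`).  We prove that for large `n` and `N ≥ κ n` the numbers `m p ^ n` (and
`y + m p ^ n`), `m ∈ digs q D N`, have almost all the right frequencies of digits and words in base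
`q`, along every set `J` of at least `κ n` of the `N + log_q (p ^ n)` places, uniformly in the digit
sets and in `y`.  The diophantine input is the theorem `powers_far` of the library (helper933), a
consequence of the subspace theorem.
-/

namespace Pool.Agent.Results.MP_b08cb4_nt.DigitRestrictedMultipliers

open Finset Pool.Agent.V11226.SM

/-- The number of the places `j ∈ J` such that the digits of `z` in base `q` at the places
`j + k - 1, …, j` (the coefficients of `q ^ (j + k - 1), …, q ^ j`), read as a number, are `w`. -/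
noncomputable def occ (q k : ℕ) (J : Finset ℕ) (z : ℝ) (w : ℕ) : ℕ :=
  (J.filter (fun j => ⌊z / (q : ℝ) ^ j⌋ % ((q ^ k : ℕ) : ℤ) = (w : ℤ))).card

open Classical in
/-- **Multiples of `p ^ n` by numbers with restricted digits.**  Let `p, q ≥ 2` be coprime, `k ≥ 1`,
`κ > 0`, `0 < ε ≤ 1` and `η > 0`.  There is `n₀` such that for all `n ≥ n₀` and `N ≥ κ n`, all sets
`D 0, D 1, …` of at least two digits in base `q`, all real `y` and all sets `J` of at least `κ n`
places `j` with `j + k ≤ N + log_q (p ^ n)`: for all but at most `η |digs q D N|` of the numbers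
`m ∈ digs q D N`, the frequency in `J` of every word of `k` digits in the expansion of
`y + m p ^ n` in base `q` differs from `q ^ (-k)` by at most `ε`. -/
theorem result (p q : ℕ) (hp : 2 ≤ p) (hq : 2 ≤ q) (hpq : p.Coprime q) (k : ℕ) (hk : 1 ≤ k)
    (κ ε η : ℝ) (hκ : 0 < κ) (hε0 : 0 < ε) (hε1 : ε ≤ 1) (hη : 0 < η) :
    ∃ n₀ : ℕ, ∀ n : ℕ, n₀ ≤ n → ∀ N : ℕ, κ * n ≤ N → ∀ D : ℕ → Finset ℕ,
      (∀ i, D i ⊆ range q ∧ 2 ≤ (D i).card) → ∀ J : Finset ℕ, κ * n ≤ J.card →
      (∀ j ∈ J, j + k ≤ N + Nat.log q (p ^ n)) → ∀ y : ℝ,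
      (((digs q D N).filter (fun m : ℕ => ∃ w < q ^ k,
        ε < |(occ q k J (y + (m : ℝ) * (p : ℝ) ^ n) w : ℝ) / J.card -
          1 / (q : ℝ) ^ k|)).card : ℝ) ≤ η * ((digs q D N).card : ℝ) :=
  qpow p q hp hq hpq k hk κ ε η hκ hε0 hε1 hη

end Pool.Agent.Results.MP_b08cb4_nt.DigitRestrictedMultipliers
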