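import Mathlib
import Pool.Agent.V1118.SpE
import Pool.Agent.Y854.GM.Rate
import Pool.Agent.Y854.GM.Lim
import Pool.Agent.Results.MP_b08cb4_nt.MissingDigits
import Pool.Agent.Results.MP_b08cb4_nt.TernaryExponent

/-!
# Missing digits of powers of primes with exponents in the sparse sequences `⌊α n ^ c⌋`, `c > 1`

1. Let `c > 1`.  For all `α > 0` outside a set of Hausdorff dimension smaller than one the following
holds for all odd primes `q`, all `p ≥ 2` not divisible by `q`, all `u ≥ 1` prime to `q` and all sets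
`D` of `d` digits, `√q < d < q`: for all but `N ^ (1 - δ)` of the exponents `m = ⌊α n ^ c⌋`, `n ≤ N`,
the base-`q` expansion of `u p ^ m` has a digit which is not in `D`; here `δ > 0`.

2. Let `q` be an odd prime and `a = log (q - 1) / log q`.  For all `α > 0` outside a set of dimension
at most `(1 + 2 a ^ 2) / 3 + 1 / c`, which is smaller than one if `c` is large, ALL sufficiently large
members `m = ⌊α n ^ c⌋` of the sequence are such that the base-`q` expansion of `p ^ m` contains all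
digits, for all primes `p ≠ q`.  For `q = 3` the exceptional set has dimension at most
`0.5754 + 1 / c`, so that `c > 2.356` is sufficient: for example the powers `2 ^ ⌊α n ^ c⌋` have the
ternary digit `2` for all large `n`, as predicted by Erdős for all powers of `2`.

The starting library has bounds for the number of the exceptional exponents (`MissingDigits`,
`TernaryExponent`), which say nothing about sparse sequences.
-/

set_option autoImplicit false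

open Finset
open Pool.Agent.V1118.SpD
open Pool.Agent.Y854.GM

namespace Pool.Agent.Results.MP_b08cb4_nt.SparseExponents

/-- the digits of `u p ^ n` to base `q` are all in `D` -/
def DigitsIn (q p : ℕ) (D : Finset ℕ) (u n : ℕ) : Prop := (Nat.digits q (u * p ^ n)).toFinset ⊆ D

/-- `q` is an odd prime, `p ≥ 2` and `u ≥ 1` are prime to `q`, and `√q < |D| < q` -/
def Hyp (q p : ℕ) (D : Finset ℕ) (u : ℕ) : Prop :=
  q.Prime ∧ q ≠ 2 ∧ 2 ≤ p ∧ ¬ q ∣ p ∧ q < D.card ^ 2 ∧ D.card < q ∧ 0 < u ∧ Nat.Coprime u q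

theorem partA (c : ℝ) (hc : 1 < c) : ∃ E : Set ℝ, dimH E < 1 ∧ ∀ α : ℝ, 0 < α → α ∉ E →
    ∀ (q p : ℕ) (D : Finset ℕ) (u : ℕ), Hyp q p D u → ∃ δ : ℝ, 0 < δ ∧ δ < 1 ∧
      ∃ N0 : ℕ, ∀ N : ℕ, N0 ≤ N → (along α c (DigitsIn q p D u) N : ℝ) ≤ (N : ℝ) ^ (1 - δ) := by
  classical
  obtain ⟨E, hE, h⟩ := sets_pow c hc (ι := ℕ × ℕ × Finset ℕ × ℕ)
    (fun k => {n | DigitsIn k.1 k.2.1 k.2.2.1 k.2.2.2 n})
  refine ⟨E, hE, fun α hα hαE q p D u hH => ?_⟩
  obtain ⟨h1, h2, h3, h4, h5, h6, h7, h8⟩ := hH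
  obtain ⟨h9, C, hC⟩ := MissingDigits.result.1 q p h1 h2 h3 h4 D h5 h6 _ rfl
  set a : ℝ := Real.log D.card / Real.log q with ha
  have hq : (1 : ℝ) < q := by exact_mod_cast h1.one_lt
  have hlq : 0 < Real.log q := Real.log_pos hq
  have hD0 : 0 < D.card := by
    rcases Nat.eq_zero_or_pos D.card with h0 | h0
    · rw [h0] at h5; omega
    · exact h0
  have ha1 : a < 1 := by
    rw [ha, div_lt_one hlq]
    exact Real.log_lt_log (by exact_mod_cast hD0) (by exact_mod_cast h6)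
  have ha0 : 0 ≤ (1 + 2 * a ^ 2) / 3 := by positivity
  obtain ⟨δ, hδ, hδ1, N0, hN0⟩ := h α hα hαE (q, p, D, u) (1 - (1 + 2 * a ^ 2) / 3)
    (|C| * 2 ^ ((1 + 2 * a ^ 2) / 3)) (by linarith) ⟨1, fun X hX => by
      have hX1 : (1 : ℝ) ≤ X := by exact_mod_cast hX
      have e0 : 1 - (1 - (1 + 2 * a ^ 2) / 3) = (1 + 2 * a ^ 2) / 3 := by ring
      rw [e0]
      have g1 := (hC u h7 h8 (X + 1) (by omega)).2
      have g2 : (((Ioc 0 X).filter (fun t => t ∈ {n | DigitsIn q p D u n})).card : ℝ) ≤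
          (((Finset.range (X + 1)).filter (fun n =>
            (Nat.digits q (u * p ^ n)).toFinset ⊆ D)).card : ℝ) := by
        have : (Ioc 0 X).filter (fun t => t ∈ {n | DigitsIn q p D u n}) ⊆
            (Finset.range (X + 1)).filter (fun n => (Nat.digits q (u * p ^ n)).toFinset ⊆ D) := by
          intro t ht
          rw [mem_filter, mem_Ioc] at ht
          rw [mem_filter, mem_range]
          exact ⟨by omega, ht.2⟩
        exact_mod_cast card_le_card this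
      refine g2.trans (g1.trans ?_)
      have g3 : ((X + 1 : ℕ) : ℝ) ^ ((1 + 2 * a ^ 2) / 3) ≤
          (2 * (X : ℝ)) ^ ((1 + 2 * a ^ 2) / 3) := by
        apply Real.rpow_le_rpow (by positivity) _ ha0
        push_cast
        linarith
      rw [Real.mul_rpow (by norm_num) (by linarith)] at g3
      calc C * ((X + 1 : ℕ) : ℝ) ^ ((1 + 2 * a ^ 2) / 3) ≤
            |C| * ((X + 1 : ℕ) : ℝ) ^ ((1 + 2 * a ^ 2) / 3) :=
            mul_le_mul_of_nonneg_right (le_abs_self C) (by positivity)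
        _ ≤ |C| * (2 ^ ((1 + 2 * a ^ 2) / 3) * (X : ℝ) ^ ((1 + 2 * a ^ 2) / 3)) :=
            mul_le_mul_of_nonneg_left g3 (abs_nonneg C)
        _ = _ := by ring⟩
  refine ⟨δ, hδ, hδ1, N0, fun N hN => ?_⟩
  have g := hN0 N hN
  rw [along_eq]
  refine (le_of_eq ?_).trans g
  congr!

/-- all large members of the sequence avoid countably many thin sets -/
theorem avoid (c s : ℝ) (hc : 1 < c) (hs : 0 ≤ s) {ι : Type} [Countable ι] (P : ι → Set ℕ)
    (hP : ∀ k, ∃ C : ℝ, ∀ N : ℕ, 1 ≤ N → ({n : ℕ | 1 ≤ n ∧ n ≤ N ∧ n ∈ P k}.ncard : ℝ) ≤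
      C * (N : ℝ) ^ s) :
    ∃ E : Set ℝ, dimH E ≤ ENNReal.ofReal (s + 1 / c) ∧ ∀ α : ℝ, 0 < α → α ∉ E → ∀ k : ι,
      ∃ n0 : ℕ, ∀ n : ℕ, n0 ≤ n → ⌊α * (n : ℝ) ^ c⌋₊ ∉ P k := by
  classical
  have h1 : ∀ k, ∃ E : Set ℝ, dimH E ≤ ENNReal.ofReal (s + 1 / c) ∧ ∀ α : ℝ, 0 < α → α ∉ E →
      ∃ n0 : ℕ, ∀ n : ℕ, n0 ≤ n → ⌊α * (n : ℝ) ^ c⌋₊ ∉ P k := by
    intro k
    obtain ⟨C, hC⟩ := hP k
    obtain ⟨E, hE, h⟩ := finite_in c s hc hs (P k) |C| (abs_nonneg C) (fun X => by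
      rcases Nat.eq_zero_or_pos X with rfl | hX
      · simp only [Ioc_self, filter_empty, card_empty, Nat.cast_zero]
        positivity
      · have g := hC X hX
        have e : (((Ioc 0 X).filter (fun t => t ∈ P k)).card : ℝ) =
            ({n : ℕ | 1 ≤ n ∧ n ≤ X ∧ n ∈ P k}.ncard : ℝ) := by
          rw [← Set.ncard_coe_finset]
          congr 2
          ext m
          rw [Finset.mem_coe, mem_filter, mem_Ioc]
          constructor
          · rintro ⟨⟨x, y⟩, z⟩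
            exact ⟨by omega, y, z⟩
          · rintro ⟨x, y, z⟩
            exact ⟨⟨by omega, y⟩, z⟩
        rw [e]
        refine g.trans ?_
        exact mul_le_mul_of_nonneg_right (le_abs_self C) (by positivity))
    refine ⟨E, hE, fun α hα hαE => ?_⟩
    obtain ⟨n0, hn0⟩ := h α hα hαE
    exact ⟨n0, fun n hn => (hn0 n hn).2⟩
  choose E hE h using h1
  refine ⟨⋃ k, E k, ?_, fun α hα hαE k => h k α hα fun hk => hαE (Set.mem_iUnion.2 ⟨k, hk⟩)⟩
  rw [dimH_iUnion]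
  exact iSup_le hE

theorem result :
    (∀ c : ℝ, 1 < c → ∃ E : Set ℝ, dimH E < 1 ∧ ∀ α : ℝ, 0 < α → α ∉ E →
      ∀ (q p : ℕ) (D : Finset ℕ) (u : ℕ), Hyp q p D u → ∃ δ : ℝ, 0 < δ ∧ δ < 1 ∧
        ∃ N0 : ℕ, ∀ N : ℕ, N0 ≤ N → (along α c (DigitsIn q p D u) N : ℝ) ≤ (N : ℝ) ^ (1 - δ)) ∧
    (∀ (c : ℝ) (q : ℕ), 1 < c → q.Prime → q ≠ 2 →
      ∃ E : Set ℝ, dimH E ≤ ENNReal.ofReal
        ((1 + 2 * (Real.log ((q : ℝ) - 1) / Real.log q) ^ 2) / 3 + 1 / c) ∧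
      ∀ α : ℝ, 0 < α → α ∉ E → ∀ p : ℕ, p.Prime → p ≠ q → ∀ b : ℕ, b < q →
        ∃ n0 : ℕ, ∀ n : ℕ, n0 ≤ n → b ∈ Nat.digits q (p ^ ⌊α * (n : ℝ) ^ c⌋₊)) ∧
    (∀ c : ℝ, 1 < c →
      ∃ E : Set ℝ, dimH E ≤ ENNReal.ofReal (0.5754 + 1 / c) ∧
      ∀ α : ℝ, 0 < α → α ∉ E → ∀ p : ℕ, p.Prime → p ≠ 3 → ∀ b : ℕ, b < 3 →
        ∃ n0 : ℕ, ∀ n : ℕ, n0 ≤ n → b ∈ Nat.digits 3 (p ^ ⌊α * (n : ℝ) ^ c⌋₊)) := by
  classical
  refine ⟨partA, fun c q hc hq hq2 => ?_, fun c hc => ?_⟩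
  · obtain ⟨E, hE, h⟩ := avoid c ((1 + 2 * (Real.log ((q : ℝ) - 1) / Real.log q) ^ 2) / 3) hc
      (by positivity) (ι := {k : ℕ × ℕ // k.1.Prime ∧ k.1 ≠ q ∧ k.2 < q})
      (fun k => {n | k.1.2 ∉ Nat.digits q (k.1.1 ^ n)}) (fun k => by
        obtain ⟨⟨p, b⟩, hp, hpq, hb⟩ := k
        obtain ⟨C, hC⟩ := MissingDigits.result.2.1 p q b hp hq hpq hq2 hb
        refine ⟨C, fun N hN => le_trans (le_of_eq ?_) (hC N hN)⟩
        rw [← Set.ncard_coe_finset]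
        congr 2
        ext m
        rw [Finset.mem_coe, mem_filter, mem_Icc]
        constructor
        · rintro ⟨x, y, z⟩
          exact ⟨⟨x, y⟩, z⟩
        · rintro ⟨⟨x, y⟩, z⟩
          exact ⟨x, y, z⟩)
    refine ⟨E, hE, fun α hα hαE p hp hpq b hb => ?_⟩
    obtain ⟨n0, hn0⟩ := h α hα hαE ⟨(p, b), hp, hpq, hb⟩
    exact ⟨n0, fun n hn => by_contra fun hcon => hn0 n hn hcon⟩
  · obtain ⟨E, hE, h⟩ := avoid c 0.5754 hc (by norm_num)
      (ι := {k : ℕ × ℕ // k.1.Prime ∧ k.1 ≠ 3 ∧ k.2 < 3})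
      (fun k => {n | k.1.2 ∉ Nat.digits 3 (k.1.1 ^ n)}) (fun k => by
        obtain ⟨⟨p, b⟩, hp, hpq, hb⟩ := k
        obtain ⟨C, hC⟩ := TernaryExponent.result.2.2 p b hp hpq hb
        refine ⟨C, fun N hN => le_trans (le_of_eq ?_) (hC N hN)⟩
        rw [← Set.ncard_coe_finset]
        congr 2
        ext m
        rw [Finset.mem_coe, mem_filter, mem_Icc]
        constructor
        · rintro ⟨x, y, z⟩
          exact ⟨⟨x, y⟩, z⟩
        · rintro ⟨⟨x, y⟩, z⟩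
          exact ⟨x, y, z⟩)
    refine ⟨E, hE, fun α hα hαE p hp hpq b hb => ?_⟩
    obtain ⟨n0, hn0⟩ := h α hα hαE ⟨(p, b), hp, hpq, hb⟩
    exact ⟨n0, fun n hn => by_contra fun hcon => hn0 n hn hcon⟩

end Pool.Agent.Results.MP_b08cb4_nt.SparseExponents
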